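import Mathlib

namespace Pool.Agent.P.MP_678d3c_nt

/-- The `5x+1` map on natural numbers. -/
def T5 (x : ℕ) : ℕ := if x % 2 = 0 then x / 2 else (5 * x + 1) / 2

/-- The proportion of indices `k < N` such that the fractional part of the base `B` logarithm of
the `k`-th iterate of `n` lies in `[a, b)`. -/
noncomputable def freq (n B : ℕ) (a b : ℝ) (N : ℕ) : ℝ :=
  (((Finset.range N).filter fun k : ℕ =>
      a ≤ Int.fract (Real.logb (B : ℝ) ((T5^[k] n : ℕ) : ℝ)) ∧
        Int.fract (Real.logb (B : ℝ) ((T5^[k] n : ℕ) : ℝ)) < b).card : ℝ) / (N : ℝ)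

/-- Among the indices `k < N` whose iterate is odd, the proportion of those such that the
fractional part of the base `B` logarithm of the iterate lies in `[a, b)`. -/
noncomputable def oddFreq (n B : ℕ) (a b : ℝ) (N : ℕ) : ℝ :=
  ((((Finset.range N).filter fun k : ℕ => ¬ T5^[k] n % 2 = 0).filter fun k : ℕ =>
      a ≤ Int.fract (Real.logb (B : ℝ) ((T5^[k] n : ℕ) : ℝ)) ∧
        Int.fract (Real.logb (B : ℝ) ((T5^[k] n : ℕ) : ℝ)) < b).card : ℝ) /
    (((Finset.range N).filter fun k : ℕ => ¬ T5^[k] n % 2 = 0).card : ℝ)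

end Pool.Agent.P.MP_678d3c_nt
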