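import Pool.Agent.P.MP_678d3c_nt.Defs
import Pool.Agent.Lib.Weyl.Criterion

open Filter Topology Complex
open scoped Real

namespace Pool.Agent.P.MP_678d3c_nt

lemma T5_pos {x : ℕ} (hx : 0 < x) : 0 < T5 x := by
  unfold T5; split_ifs <;> omega

lemma orbit_pos {n : ℕ} (hn : 0 < n) (k : ℕ) : 0 < T5^[k] n := by
  induction k with
  | zero => exact hn
  | succ k ih => rw [Function.iterate_succ_apply']; exact T5_pos ih

lemma orbit_tendsto {n : ℕ} (h : ¬ BddAbove (Set.range fun k => T5^[k] n)) :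
    Tendsto (fun k => T5^[k] n) atTop atTop := by
  have key : ∀ i j, i < j → T5^[i] n = T5^[j] n → False := by
    intro i j hij e
    apply h
    have hb : ∀ k, ∃ l, l < j ∧ T5^[k] n = T5^[l] n := by
      intro k
      induction k with
      | zero => exact ⟨0, by omega, rfl⟩
      | succ k ih =>
        obtain ⟨l, hl, e2⟩ := ih
        rw [Function.iterate_succ_apply', e2, ← Function.iterate_succ_apply' T5]
        by_cases hl2 : l + 1 < j
        · exact ⟨l + 1, hl2, rfl⟩
        · have : l.succ = j := by omega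
          rw [this]; exact ⟨i, hij, e.symm⟩
    refine ((Set.finite_Iio j).image fun l => T5^[l] n).bddAbove.mono ?_
    rintro _ ⟨k, rfl⟩
    obtain ⟨l, hl, e2⟩ := hb k
    exact ⟨l, hl, e2.symm⟩
  have hinj : Function.Injective fun k => T5^[k] n := by
    intro i j e
    rcases lt_trichotomy i j with h1 | h1 | h1
    · exact (key i j h1 e).elim
    · exact h1
    · exact (key j i h1 e.symm).elim
  have := hinj.tendsto_cofinite
  rwa [Nat.cofinite_eq_atTop] at this

/-- main part of the logarithmic increment -/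
noncomputable def step (x : ℕ) : ℝ := -Real.log 2 + if x % 2 = 0 then 0 else Real.log 5

/-- error in the logarithmic increment -/
noncomputable def err (x : ℕ) : ℝ := Real.log (T5 x : ℕ) - Real.log x - step x

lemma err_bound {x : ℕ} (hx : 0 < x) : 0 ≤ err x ∧ err x ≤ (x : ℝ)⁻¹ := by
  have hx' : (0 : ℝ) < x := by exact_mod_cast hx
  unfold err step T5
  split_ifs with h
  · have : ((x / 2 : ℕ) : ℝ) = x / 2 := by
      obtain ⟨m, rfl⟩ : ∃ m, x = 2 * m := ⟨x / 2, by omega⟩
      simp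
    rw [this, Real.log_div hx'.ne' (by norm_num)]
    constructor
    · linarith
    · have := inv_pos.2 hx'; linarith
  · have : (((5 * x + 1) / 2 : ℕ) : ℝ) = 5 * x * (1 + (5 * (x : ℝ))⁻¹) / 2 := by
      obtain ⟨m, rfl⟩ : ∃ m, x = 2 * m + 1 := ⟨x / 2, by omega⟩
      have : (5 * (2 * m + 1) + 1) / 2 = 5 * m + 3 := by omega
      rw [this]; push_cast; field_simp; ring
    have h5 : (0 : ℝ) < (5 * (x : ℝ))⁻¹ := by positivity
    rw [this, Real.log_div (by positivity) (by norm_num), Real.log_mul (by positivity) (by positivity),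
      Real.log_mul (by norm_num) hx'.ne']
    have h1 : 0 ≤ Real.log (1 + (5 * (x : ℝ))⁻¹) := Real.log_nonneg (by linarith)
    have h2 : Real.log (1 + (5 * (x : ℝ))⁻¹) ≤ (5 * (x : ℝ))⁻¹ := by
      have := Real.log_le_sub_one_of_pos (x := 1 + (5 * (x : ℝ))⁻¹) (by linarith)
      linarith
    have h3 : (5 * (x : ℝ))⁻¹ ≤ (x : ℝ)⁻¹ := inv_anti₀ hx' (by linarith)
    constructor <;> linarith

variable {n : ℕ}

lemma err_tendsto (hn : 0 < n) (h : ¬ BddAbove (Set.range fun k => T5^[k] n)) :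
    Tendsto (fun k => err (T5^[k] n)) atTop (𝓝 0) := by
  have h1 : Tendsto (fun k => ((T5^[k] n : ℕ) : ℝ)⁻¹) atTop (𝓝 0) :=
    tendsto_inv_atTop_zero.comp (tendsto_natCast_atTop_atTop.comp (orbit_tendsto h))
  exact squeeze_zero (fun k => (err_bound (orbit_pos hn k)).1)
    (fun k => (err_bound (orbit_pos hn k)).2) h1

/-- the character `t ↦ exp (i c t)` -/
noncomputable def ch (c t : ℝ) : ℂ := cexp ((c * t : ℝ) * I)

lemma ch_add (c s t : ℝ) : ch c (s + t) = ch c s * ch c t := by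
  unfold ch; rw [← Complex.exp_add]; congr 1; push_cast; ring

lemma norm_ch (c t : ℝ) : ‖ch c t‖ = 1 := Complex.norm_exp_ofReal_mul_I _

lemma ch_nat (c t : ℝ) (i : ℕ) : ch c (i * t) = ch c t ^ i := by
  unfold ch; rw [← Complex.exp_nat_mul]; congr 1; push_cast; ring

lemma key (hn : 0 < n) (h : ¬ BddAbove (Set.range fun k => T5^[k] n)) (c : ℝ) :
    Tendsto (fun N : ℕ => (∑ k ∈ Finset.range N,
      (ch c (step (T5^[k] n)) - 1) * ch c (Real.log (T5^[k] n : ℕ))) / (N : ℂ)) atTop (𝓝 0) := by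
  set u : ℕ → ℂ := fun k => ch c (Real.log (T5^[k] n : ℕ)) with hu
  set d : ℕ → ℂ := fun k => u (k + 1) - ch c (step (T5^[k] n)) * u k with hd
  have hd0 : Tendsto d atTop (𝓝 0) := by
    rw [tendsto_zero_iff_norm_tendsto_zero]
    have hc : Continuous fun t : ℝ => ‖ch c t - 1‖ := by unfold ch; fun_prop
    have h1 := (hc.tendsto 0).comp (err_tendsto hn h)
    have e0 : ‖ch c 0 - 1‖ = 0 := by simp [ch]
    rw [e0] at h1
    refine h1.congr fun k => ?_
    have e : Real.log (T5^[k + 1] n : ℕ)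
        = step (T5^[k] n) + Real.log (T5^[k] n : ℕ) + err (T5^[k] n) := by
      rw [Function.iterate_succ_apply', err]; ring
    simp only [hd, hu, Function.comp]
    rw [e, ch_add, ch_add, ← mul_sub_one, norm_mul, norm_mul, norm_ch, norm_ch]
    simp
  have h1 := hd0.cesaro_smul
  have h2 : Tendsto (fun N : ℕ => (u N - u 0) / (N : ℂ)) atTop (𝓝 0) := by
    rw [tendsto_zero_iff_norm_tendsto_zero]
    refine squeeze_zero (fun _ => norm_nonneg _) (g := fun N : ℕ => 2 / (N : ℝ)) (fun N => ?_)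
      (tendsto_const_div_atTop_nhds_zero_nat 2)
    rw [norm_div, Complex.norm_natCast]
    gcongr
    have := norm_sub_le (u N) (u 0)
    simp only [hu, norm_ch] at this ⊢
    linarith
  have h3 := h2.sub h1
  rw [sub_zero] at h3
  refine h3.congr fun N => ?_
  rw [← Finset.sum_range_sub u N]
  simp only [Complex.real_smul, Complex.ofReal_inv, Complex.ofReal_natCast]
  rw [div_eq_inv_mul, div_eq_inv_mul, ← mul_sub, ← Finset.sum_sub_distrib]
  congr 1
  refine Finset.sum_congr rfl fun k _ => ?_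
  simp only [hd, hu]; ring

lemma fourier_logb (h : ℤ) (B t : ℝ) :
    fourier h ((t / Real.log B : ℝ) : UnitAddCircle) = ch (2 * π * h / Real.log B) t := by
  rw [fourier_coe_apply, ch]; congr 1; push_cast; ring

lemma ch_log_self (h : ℤ) {B : ℝ} (hB : Real.log B ≠ 0) :
    ch (2 * π * h / Real.log B) (Real.log B) = 1 := by
  unfold ch
  rw [div_mul_cancel₀ _ hB, ← Complex.exp_int_mul_two_pi_mul_I h]
  congr 1; push_cast; ring

lemma log_indep {B : ℕ} (hB : 5 ∣ B) (hB0 : 0 < B) {h q : ℤ}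
    (e : h * Real.log 2 = q * Real.log B) : h = 0 ∧ q = 0 := by
  have l2 : 0 < Real.log 2 := Real.log_pos (by norm_num)
  have hB1 : (1 : ℝ) ≤ B := by exact_mod_cast hB0
  have lB : 0 ≤ Real.log B := Real.log_nonneg hB1
  have e2 : (h.natAbs : ℝ) * Real.log 2 = (q.natAbs : ℝ) * Real.log B := by
    have := congrArg abs e
    rw [abs_mul, abs_mul, abs_of_pos l2, abs_of_nonneg lB] at this
    simpa [Nat.cast_natAbs] using this
  rw [← Real.log_pow, ← Real.log_pow] at e2
  have e3 := Real.log_injOn_pos (Set.mem_Ioi.2 (by positivity)) (Set.mem_Ioi.2 (by positivity)) e2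
  have e4 : 2 ^ h.natAbs = B ^ q.natAbs := by exact_mod_cast e3
  have hq : q = 0 := by
    by_contra hq
    have : 5 ∣ 2 ^ h.natAbs := e4 ▸ dvd_pow hB (by omega)
    have := (Nat.prime_five).dvd_of_dvd_pow this
    omega
  refine ⟨?_, hq⟩
  subst hq
  simp only [Int.cast_zero, zero_mul, mul_eq_zero, Int.cast_eq_zero] at e
  exact e.resolve_right l2.ne'

lemma ch_eq_one {h : ℤ} {L t : ℝ} (hL : L ≠ 0) (e : ch (2 * π * h / L) t = 1) :
    ∃ q : ℤ, h * t = q * L := by
  obtain ⟨q, hq⟩ := Complex.exp_eq_one_iff.1 e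
  refine ⟨q, ?_⟩
  have h1 : (((2 * π * h / L * t : ℝ) : ℂ)) = ((q * (2 * π) : ℝ) : ℂ) := by
    apply mul_right_cancel₀ Complex.I_ne_zero
    rw [hq]; push_cast; ring
  have h2 : 2 * π * h / L * t = q * (2 * π) := by exact_mod_cast h1
  have hp := Real.pi_pos
  field_simp at h2
  linarith

/-- number of odd terms among the first `N` -/
def odd (n N : ℕ) : ℕ := ((Finset.range N).filter fun k => ¬ T5^[k] n % 2 = 0).card

lemma upper (hn : 0 < n) (h : ¬ BddAbove (Set.range fun k => T5^[k] n)) (j : ℕ)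
    {a b : ℝ} (ha : 0 ≤ a) (hab : a ≤ b) (hb : b ≤ 1) :
    Tendsto (fun N : ℕ =>
      (((((Finset.range N ×ˢ Finset.range (j + 1)).filter
          fun p => p.2 = 0 ∨ ¬ T5^[p.1] n % 2 = 0).filter fun p =>
        a ≤ Int.fract ((Real.log (T5^[p.1] n : ℕ) + p.2 * -Real.log 2) / Real.log (5 * 2 ^ j : ℕ)) ∧
        Int.fract ((Real.log (T5^[p.1] n : ℕ) + p.2 * -Real.log 2) / Real.log (5 * 2 ^ j : ℕ)) < b).card : ℝ)
        - (b - a) * ((Finset.range N ×ˢ Finset.range (j + 1)).filter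
          fun p => p.2 = 0 ∨ ¬ T5^[p.1] n % 2 = 0).card) / ((N * (j + 1) : ℕ) : ℝ)) atTop (𝓝 0) := by
  refine Pool.Agent.Lib.Weyl.weyl (d := fun N => N * (j + 1))
    (s := fun N => (Finset.range N ×ˢ Finset.range (j + 1)).filter
          fun p => p.2 = 0 ∨ ¬ T5^[p.1] n % 2 = 0)
    (fun N => (Finset.card_filter_le _ _).trans (by simp)) (fun N => by positivity)
    (fun p => (Real.log (T5^[p.1] n : ℕ) + p.2 * -Real.log 2) / Real.log (5 * 2 ^ j : ℕ))
    ?_ ha hab hb
  intro m hm
  have hB1 : (1 : ℝ) < (5 * 2 ^ j : ℕ) := by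
    have : 1 < 5 * 2 ^ j := by have := Nat.one_le_two_pow (n := j); omega
    exact_mod_cast this
  have hL : Real.log (5 * 2 ^ j : ℕ) ≠ 0 := (Real.log_pos hB1).ne'
  set c := 2 * π * m / Real.log (5 * 2 ^ j : ℕ) with hc
  set e := ch c (-Real.log 2) with he
  have he1 : e - 1 ≠ 0 := by
    intro h1
    obtain ⟨q, hq⟩ := ch_eq_one hL (sub_eq_zero.1 h1)
    have := log_indep (B := 5 * 2 ^ j) (h := -m) (q := q) (Dvd.intro _ rfl) (by positivity)
      (by push_cast at hq ⊢; linarith)
    omega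
  have hodd : ch c (-Real.log 2 + Real.log 5) = e ^ (j + 1) := by
    have : -Real.log 2 + Real.log 5
        = Real.log (5 * 2 ^ j : ℕ) + ((j + 1 : ℕ) : ℝ) * -Real.log 2 := by
      push_cast
      rw [Real.log_mul (by norm_num) (by positivity), Real.log_pow]; ring
    rw [this, ch_add, ch_nat, hc, ch_log_self m hL, one_mul]
  have h1 := (key hn h c).const_mul ((e - 1)⁻¹ * ((j + 1 : ℕ) : ℂ)⁻¹)
  rw [mul_zero] at h1
  refine h1.congr fun N => ?_
  have hs : ∑ p ∈ (Finset.range N ×ˢ Finset.range (j + 1)).filter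
        (fun p => p.2 = 0 ∨ ¬ T5^[p.1] n % 2 = 0),
      fourier m (((Real.log (T5^[p.1] n : ℕ) + p.2 * -Real.log 2)
        / Real.log (5 * 2 ^ j : ℕ) : ℝ) : UnitAddCircle)
      = (e - 1)⁻¹ * ∑ k ∈ Finset.range N,
        (ch c (step (T5^[k] n)) - 1) * ch c (Real.log (T5^[k] n : ℕ)) := by
    rw [Finset.sum_filter, Finset.sum_product, Finset.mul_sum]
    refine Finset.sum_congr rfl fun k _ => ?_
    simp only [fourier_logb, ← hc, ch_add, ch_nat, ← he]
    by_cases hk : T5^[k] n % 2 = 0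
    · have : step (T5^[k] n) = -Real.log 2 := by simp [step, hk]
      rw [this, ← he]
      simp only [hk, not_true, or_false]
      rw [Finset.sum_ite_eq']
      simp only [Finset.mem_range, Nat.succ_pos, if_true, pow_zero, mul_one]
      field_simp
    · have : step (T5^[k] n) = -Real.log 2 + Real.log 5 := by simp [step, hk]
      rw [this, hodd]
      simp only [hk, not_false_eq_true, or_true, if_true]
      rw [← Finset.mul_sum, ← mul_geom_sum e (j + 1)]
      field_simp
  rw [hs]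
  push_cast
  rw [div_eq_mul_inv, div_eq_mul_inv, mul_inv]
  ring

lemma base_five (hn : 0 < n) (h : ¬ BddAbove (Set.range fun k => T5^[k] n))
    {a b : ℝ} (ha : 0 ≤ a) (hab : a ≤ b) (hb : b ≤ 1) :
    Tendsto (freq n 5 a b) atTop (𝓝 (b - a)) := by
  have hL : Real.log (5 : ℕ) ≠ 0 := (Real.log_pos (by norm_num)).ne'
  have h1 := Pool.Agent.Lib.Weyl.weyl (d := fun N => N) (s := fun N => Finset.range N)
    (fun N => by simp) (fun N => Nat.succ_pos N)
    (fun k => Real.logb (5 : ℕ) (T5^[k] n : ℕ)) ?_ ha hab hb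
  · have h2 := h1.add_const (b - a)
    rw [zero_add] at h2
    refine h2.congr' ?_
    filter_upwards [eventually_gt_atTop 0] with N hN
    have : (N : ℝ) ≠ 0 := by exact_mod_cast hN.ne'
    simp only [freq, Finset.card_range]
    field_simp
    ring
  intro m hm
  set c := 2 * π * m / Real.log (5 : ℕ) with hc
  set e := ch c (-Real.log 2) with he
  have he1 : e - 1 ≠ 0 := by
    intro h1
    obtain ⟨q, hq⟩ := ch_eq_one hL (sub_eq_zero.1 h1)
    have := log_indep (B := 5) (h := -m) (q := q) dvd_rfl (by norm_num)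
      (by push_cast at hq ⊢; linarith)
    omega
  have hodd : ch c (-Real.log 2 + Real.log 5) = e := by
    have := ch_log_self m hL
    rw [← hc] at this
    push_cast at this
    rw [ch_add, this, mul_one]
  have h1 := (key hn h c).const_mul (e - 1)⁻¹
  rw [mul_zero] at h1
  refine h1.congr fun N => ?_
  rw [← mul_div_assoc, Finset.mul_sum]
  congr 1
  refine Finset.sum_congr rfl fun k _ => ?_
  rw [Real.logb, fourier_logb, ← hc]
  have : ch c (step (T5^[k] n)) = e := by
    by_cases hk : T5^[k] n % 2 = 0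
    · simp [step, hk, he]
    · rw [← hodd]; simp [step, hk]
  rw [this]
  field_simp

lemma base_upper (hn : 0 < n) (h : ¬ BddAbove (Set.range fun k => T5^[k] n)) (j : ℕ)
    {a b : ℝ} (ha : 0 ≤ a) (hab : a ≤ b) (hb : b ≤ 1) {ε : ℝ} (hε : 0 < ε) :
    ∀ᶠ N in atTop, freq n (5 * 2 ^ j) a b N ≤ (j + 1) * (b - a) + ε := by
  have h1 := upper hn h j ha hab hb
  have hj : (0 : ℝ) < j + 1 := by positivity
  filter_upwards [h1.eventually (gt_mem_nhds (div_pos hε hj)), eventually_gt_atTop 0] with N h2 hN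
  have hN' : (0 : ℝ) < N := by exact_mod_cast hN
  set S := (Finset.range N ×ˢ Finset.range (j + 1)).filter
          fun p => p.2 = 0 ∨ ¬ T5^[p.1] n % 2 = 0 with hS
  have hS1 : (S.card : ℝ) ≤ N * (j + 1) := by
    have : S.card ≤ N * (j + 1) := (Finset.card_filter_le _ _).trans (by simp)
    exact_mod_cast this
  have hle : (((Finset.range N).filter fun k : ℕ =>
      a ≤ Int.fract (Real.logb ((5 * 2 ^ j : ℕ) : ℝ) ((T5^[k] n : ℕ) : ℝ)) ∧
        Int.fract (Real.logb ((5 * 2 ^ j : ℕ) : ℝ) ((T5^[k] n : ℕ) : ℝ)) < b).card : ℝ) ≤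
      (S.filter fun p =>
        a ≤ Int.fract ((Real.log (T5^[p.1] n : ℕ) + p.2 * -Real.log 2) / Real.log (5 * 2 ^ j : ℕ)) ∧
        Int.fract ((Real.log (T5^[p.1] n : ℕ) + p.2 * -Real.log 2) / Real.log (5 * 2 ^ j : ℕ)) < b).card := by
    norm_cast
    refine Finset.card_le_card_of_injOn (fun k => (k, 0)) ?_ ?_
    · intro k hk
      simp only [Finset.coe_filter, Finset.mem_range, Set.mem_ofPred_eq, Real.logb] at hk
      simp only [hS, Finset.coe_filter, Finset.mem_filter, Finset.mem_product, Finset.mem_range,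
        Set.mem_ofPred_eq, Nat.cast_zero, zero_mul, add_zero, true_or, and_true, Nat.succ_pos]
      exact hk
    · intro k _ l _ e
      exact congrArg Prod.fst e
  push_cast at h2 hle
  rw [div_lt_div_iff₀ (by positivity) hj] at h2
  unfold freq
  push_cast
  rw [div_le_iff₀ hN']
  have h3 : (b - a) * S.card ≤ (b - a) * (N * (j + 1)) :=
    mul_le_mul_of_nonneg_left hS1 (by linarith)
  rw [← mul_assoc] at h2
  have h4 := lt_of_mul_lt_mul_right h2 hj.le
  linarith

lemma odd_lower (hn : 0 < n) (h : ¬ BddAbove (Set.range fun k => T5^[k] n)) {ε : ℝ} (hε : 0 < ε) :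
    ∀ᶠ N : ℕ in atTop, Real.log 2 / Real.log 5 - ε ≤ (odd n N : ℝ) / N := by
  have l5 : 0 < Real.log 5 := Real.log_pos (by norm_num)
  have h1 := (err_tendsto hn h).cesaro
  have h2 := tendsto_const_div_atTop_nhds_zero_nat (Real.log n)
  have h3 := h1.add h2
  rw [add_zero] at h3
  filter_upwards [h3.eventually (gt_mem_nhds (mul_pos hε l5)), eventually_gt_atTop 0] with N h4 hN
  have hN' : (0 : ℝ) < N := by exact_mod_cast hN
  have h5 : Real.log (T5^[N] n : ℕ) - Real.log n
      = -(N * Real.log 2) + odd n N * Real.log 5 + ∑ k ∈ Finset.range N, err (T5^[k] n) := by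
    have := Finset.sum_range_sub (fun k => Real.log (T5^[k] n : ℕ)) N
    simp only [Function.iterate_zero, id] at this
    rw [← this]
    have e : ∀ k, Real.log (T5^[k + 1] n : ℕ) - Real.log (T5^[k] n : ℕ)
        = -Real.log 2 + (if ¬ T5^[k] n % 2 = 0 then 1 else 0) * Real.log 5 + err (T5^[k] n) := by
      intro k
      rw [Function.iterate_succ_apply', err, step]
      split_ifs <;> ring
    simp only [e, Finset.sum_add_distrib, ← Finset.sum_mul, odd, Finset.card_filter]
    simp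
  have h6 : 0 ≤ Real.log (T5^[N] n : ℕ) := Real.log_natCast_nonneg _
  rw [le_div_iff₀ hN', sub_mul, div_mul_eq_mul_div, sub_le_iff_le_add, div_le_iff₀ l5]
  rw [inv_mul_eq_div, ← add_div, div_lt_iff₀ hN'] at h4
  nlinarith

lemma odd_two (hn : 0 < n) (h : ¬ BddAbove (Set.range fun k => T5^[k] n))
    {a b : ℝ} (ha : 0 ≤ a) (hab : a ≤ b) (hb : b ≤ 1) :
    Tendsto (fun N : ℕ =>
      (((((Finset.range N).filter fun k => ¬ T5^[k] n % 2 = 0).filter fun k : ℕ =>
        a ≤ Int.fract (Real.logb ((2 : ℕ) : ℝ) ((T5^[k] n : ℕ) : ℝ)) ∧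
          Int.fract (Real.logb ((2 : ℕ) : ℝ) ((T5^[k] n : ℕ) : ℝ)) < b).card : ℝ)
        - (b - a) * odd n N) / N) atTop (𝓝 0) := by
  have hL : Real.log (2 : ℕ) ≠ 0 := (Real.log_pos (by norm_num)).ne'
  refine Pool.Agent.Lib.Weyl.weyl (d := fun N => N)
    (s := fun N => (Finset.range N).filter fun k => ¬ T5^[k] n % 2 = 0)
    (fun N => (Finset.card_filter_le _ _).trans (by simp)) (fun N => Nat.succ_pos N)
    (fun k => Real.logb (2 : ℕ) (T5^[k] n : ℕ)) ?_ ha hab hb
  intro m hm
  set c := 2 * π * m / Real.log (2 : ℕ) with hc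
  have h2 : ch c (Real.log 2) = 1 := by
    have := ch_log_self m hL
    rw [← hc] at this
    exact_mod_cast this
  have h2' : ch c (-Real.log 2) = 1 := by
    have := ch_add c (-Real.log 2) (Real.log 2)
    rw [h2, neg_add_cancel, mul_one] at this
    rw [← this]; simp [ch]
  set e := ch c (Real.log 5) with he
  have he1 : e - 1 ≠ 0 := by
    intro h1
    obtain ⟨q, hq⟩ := ch_eq_one hL (sub_eq_zero.1 h1)
    have := log_indep (B := 5) (h := q) (q := m) dvd_rfl (by norm_num)
      (by push_cast at hq ⊢; linarith)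
    omega
  have h1 := (key hn h c).const_mul (e - 1)⁻¹
  rw [mul_zero] at h1
  refine h1.congr fun N => ?_
  rw [← mul_div_assoc, Finset.mul_sum, Finset.sum_filter]
  congr 1
  refine Finset.sum_congr rfl fun k _ => ?_
  rw [Real.logb, fourier_logb, ← hc]
  by_cases hk : T5^[k] n % 2 = 0
  · simp [step, hk, h2']
  · have : step (T5^[k] n) = -Real.log 2 + Real.log 5 := by simp [step, hk]
    rw [this, ch_add, h2', one_mul, ← he, if_pos hk]
    field_simp

lemma base_two (hn : 0 < n) (h : ¬ BddAbove (Set.range fun k => T5^[k] n))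
    {a b : ℝ} (ha : 0 ≤ a) (hab : a ≤ b) (hb : b ≤ 1) {ε : ℝ} (hε : 0 < ε) :
    ∀ᶠ N in atTop, Real.log 2 / Real.log 5 * (b - a) - ε ≤ freq n 2 a b N := by
  have h1 := odd_two hn h ha hab hb
  filter_upwards [h1.eventually (lt_mem_nhds (neg_lt_zero.2 (half_pos hε))),
    odd_lower hn h (half_pos hε), eventually_gt_atTop 0] with N h2 h3 hN
  have hN' : (0 : ℝ) < N := by exact_mod_cast hN
  have hle : ((((Finset.range N).filter fun k => ¬ T5^[k] n % 2 = 0).filter fun k : ℕ =>
      a ≤ Int.fract (Real.logb ((2 : ℕ) : ℝ) ((T5^[k] n : ℕ) : ℝ)) ∧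
        Int.fract (Real.logb ((2 : ℕ) : ℝ) ((T5^[k] n : ℕ) : ℝ)) < b).card : ℝ) / N
      ≤ freq n 2 a b N := by
    unfold freq
    gcongr
    exact Finset.filter_subset _ _
  rw [sub_div, mul_div_assoc] at h2
  have h4 : (b - a) * (Real.log 2 / Real.log 5 - ε / 2) ≤ (b - a) * ((odd n N : ℝ) / N) :=
    mul_le_mul_of_nonneg_left h3 (by linarith)
  nlinarith

lemma odd_base_two (hn : 0 < n) (h : ¬ BddAbove (Set.range fun k => T5^[k] n))
    {a b : ℝ} (ha : 0 ≤ a) (hab : a ≤ b) (hb : b ≤ 1) :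
    Tendsto (oddFreq n 2 a b) atTop (𝓝 (b - a)) := by
  have h1 := odd_two hn h ha hab hb
  have hc : 0 < Real.log 2 / Real.log 5 / 2 :=
    half_pos (div_pos (Real.log_pos (by norm_num)) (Real.log_pos (by norm_num)))
  have h2 := odd_lower hn h hc
  rw [← tendsto_sub_nhds_zero_iff, tendsto_zero_iff_abs_tendsto_zero]
  have h3 := h1.abs.div_const (Real.log 2 / Real.log 5 / 2)
  rw [abs_zero, zero_div] at h3
  refine squeeze_zero' (Eventually.of_forall fun _ => abs_nonneg _) ?_ h3
  filter_upwards [h2, eventually_gt_atTop 0] with N h4 hN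
  have hN' : (0 : ℝ) < N := by exact_mod_cast hN
  have h5 : Real.log 2 / Real.log 5 / 2 ≤ (odd n N : ℝ) / N := by linarith
  have h6 : (0 : ℝ) < odd n N := by
    have := hc.trans_le h5
    exact (div_pos_iff_of_pos_right hN').1 this
  have e : oddFreq n 2 a b N - (b - a) = ((((((Finset.range N).filter
      fun k => ¬ T5^[k] n % 2 = 0).filter fun k : ℕ =>
        a ≤ Int.fract (Real.logb ((2 : ℕ) : ℝ) ((T5^[k] n : ℕ) : ℝ)) ∧
          Int.fract (Real.logb ((2 : ℕ) : ℝ) ((T5^[k] n : ℕ) : ℝ)) < b).card : ℝ)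
        - (b - a) * odd n N) / N) / ((odd n N : ℝ) / N) := by
    change _ / (odd n N : ℝ) - _ = _
    field_simp
  simp only [Function.comp]
  rw [e, abs_div, abs_of_pos (div_pos h6 hN')]
  gcongr

end Pool.Agent.P.MP_678d3c_nt
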